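import Pool.Agent.Work.MP_968b24_an.Defs
import Pool.Agent.Work.MP_968b24_an.Exist

set_option autoImplicit false

namespace Pool.Agent.Results.MP_968b24_an.Q1Yes

open Filter Finset Pool.Agent.Work.MP_968b24_an

/-- Q1 (a) and (b): every bounded real sequence admits a fully monotonic admissible sequence of
weights, and also a nonincreasing one. -/
theorem result :
    (∀ s : ℕ → ℝ, (∃ B : ℝ, ∀ n : ℕ, 1 ≤ n → |s n| ≤ B) →
      ∃ (l : ℕ → ℝ) (L : ℝ), AdmissibleWithLimit s l L ∧ FullyMonotonic l) ∧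
    (∀ s : ℕ → ℝ, (∃ B : ℝ, ∀ n : ℕ, 1 ≤ n → |s n| ≤ B) →
      ∃ (l : ℕ → ℝ) (L : ℝ), AdmissibleWithLimit s l L ∧ Nonincreasing l) := by
  have h : ∀ s : ℕ → ℝ, (∃ B : ℝ, ∀ n : ℕ, 1 ≤ n → |s n| ≤ B) →
      ∃ (l : ℕ → ℝ) (L : ℝ), AdmissibleWithLimit s l L ∧ FullyMonotonic l := by
    rintro s ⟨B, hB⟩
    obtain ⟨a, l, h1, h2, _, _⟩ := exists_limit sparse_pow s B hB
    exact ⟨l, a, h2, h1⟩
  refine ⟨h, fun s hs => ?_⟩
  obtain ⟨l, L, h1, h2⟩ := h s hs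
  exact ⟨l, L, h1, h2.nonincreasing⟩

end Pool.Agent.Results.MP_968b24_an.Q1Yes
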