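import Pool.Agent.Work.MP_968b24_an.Defs
import Pool.Agent.Work.MP_968b24_an.Blocks

set_option autoImplicit false

namespace Pool.Agent.Results.MP_968b24_an.Q2Yes

open Filter Finset Pool.Agent.Work.MP_968b24_an

/-- Q2: there is a sequence with values in `{0,1}` having two fully monotonic admissible sequences
of weights whose weighted means have different limits. -/
theorem result :
    ∃ (s l₁ l₂ : ℕ → ℝ) (L₁ L₂ : ℝ), (∀ n, s n = 0 ∨ s n = 1) ∧
      FullyMonotonic l₁ ∧ AdmissibleWithLimit s l₁ L₁ ∧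
      FullyMonotonic l₂ ∧ AdmissibleWithLimit s l₂ L₂ ∧ L₁ ≠ L₂ := by
  have hs : ∀ n, 1 ≤ n → |(fun n => g (n - 1)) n| ≤ 1 := fun n _ => g_abs _
  obtain ⟨a, l, h1, h2, h3, _⟩ := exists_limit (sparse_y 0) (fun n => g (n - 1)) 1 hs
  obtain ⟨a', l', h1', h2', _, h3'⟩ := exists_limit (sparse_y 1) (fun n => g (n - 1)) 1 hs
  have ha : 3/4 ≤ a := h3 _ (fun j => by
    simp only [Nat.add_sub_cancel]
    exact abel_even _ (by omega))
  have ha' : a' ≤ 1/4 := h3' _ (fun j => by
    simp only [Nat.add_sub_cancel]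
    exact abel_odd _ (by omega))
  refine ⟨fun n => g (n - 1), l, l', a, a', ?_, h1, h2, h1', h2', ?_⟩
  · intro n
    simp only [g]
    split_ifs
    · right; rfl
    · left; rfl
  · intro h
    linarith

end Pool.Agent.Results.MP_968b24_an.Q2Yes
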